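import Pool.Agent.Q82.MD.Stm

/-!
# Project MD (helper82), job MD-1: the heat flow with values in a normed space

The proofs are those of `Pool.Agent.W779.Morrey.Flow` and `Pool.Agent.W779.Morrey.Trig`.
-/

set_option autoImplicit false

open MeasureTheory Set Filter Topology

namespace Pool.Agent.Q92.MD

open Pool.Agent.W779.Morrey Pool.Agent.Q82.MD

variable {X : Type*} [NormedAddCommGroup X] [NormedSpace ℝ X]

section dissipation

variable {W : X → ℝ} {θ : X → X →L[ℝ] ℝ}

theorem dissipationG (hW : ContDiff ℝ 2 W) (hθ : ContDiff ℝ 1 θ) (F : V → X) (G : Fin 2 → V → X)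
    (G2 : Fin 2 → Fin 2 → V → X)
    (hF : ∀ x, HasFDerivAt F (mk' fun j => G j x) x)
    (hG : ∀ j x, HasFDerivAt (G j) (mk' fun l => G2 j l x) x)
    (hG2 : ∀ j l, Continuous (G2 j l)) (hsymm : ∀ x, G2 0 1 x = G2 1 0 x)
    (hpF : ∀ i x, F (x + Pi.single i 1) = F x)
    (hpG : ∀ j i x, G j (x + Pi.single i 1) = G j x) :
    ∫ x in Icc (0 : V) 1,
      ((fderiv ℝ (fderiv ℝ W) (F x) (G 0 x) (G 0 x) + fderiv ℝ (fderiv ℝ W) (F x) (G 1 x) (G 1 x)
      + (fderiv ℝ θ (F x) (G 0 x) (G 1 x) - fderiv ℝ θ (F x) (G 1 x) (G 0 x)))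
      + fderiv ℝ W (F x) (G2 0 0 x + G2 1 1 x)) = 0 := by
  have hFc : Continuous F := continuous_iff_continuousAt.2 fun x => (hF x).continuousAt
  have hGc : ∀ j, Continuous (G j) := fun j =>
    continuous_iff_continuousAt.2 fun x => (hG j x).continuousAt
  have hP1 : ContDiff ℝ 1 (fderiv ℝ W) := hW.fderiv_right (by norm_num)
  have hPd : ∀ y, HasFDerivAt (fderiv ℝ W) (fderiv ℝ (fderiv ℝ W) y) y := fun y =>
    (hP1.differentiable (by norm_num) y).hasFDerivAt
  have hθd : ∀ y, HasFDerivAt θ (fderiv ℝ θ y) y := fun y =>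
    (hθ.differentiable (by norm_num) y).hasFDerivAt
  have hHc : Continuous (fderiv ℝ (fderiv ℝ W)) := hP1.continuous_fderiv (by norm_num)
  have hΘc : Continuous (fderiv ℝ θ) := hθ.continuous_fderiv (by norm_num)
  set P := fderiv ℝ W with hPdef
  set H := fderiv ℝ P with hHdef
  set Θ := fderiv ℝ θ with hΘdef
  have d1 : ∀ j x, HasFDerivAt (fun x => P (F x) (G j x))
      ((P (F x)).comp (mk' fun l => G2 j l x) + ((H (F x)).comp (mk' fun j => G j x)).flip (G j x))
      x := fun j x => ((hPd (F x)).comp x (hF x)).clm_apply (hG j x)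
  have d2 : ∀ j x, HasFDerivAt (fun x => θ (F x) (G j x))
      ((θ (F x)).comp (mk' fun l => G2 j l x) + ((Θ (F x)).comp (mk' fun j => G j x)).flip (G j x))
      x := fun j x => ((hθd (F x)).comp x (hF x)).clm_apply (hG j x)
  have hmkc : ∀ (K : Fin 2 → V → X), (∀ j, Continuous (K j)) →
      Continuous (fun x => mk' fun j => K j x) := by
    intro K hK
    unfold mk'
    refine continuous_finsetSum _ fun j _ => ?_
    exact (ContinuousLinearMap.smulRightL ℝ V X
      (ContinuousLinearMap.proj (R := ℝ) (φ := fun _ : Fin 2 => ℝ) j)).continuous.comp (hK j)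
  have c1 : ∀ j, Continuous (fun x => (P (F x)).comp (mk' fun l => G2 j l x)
      + ((H (F x)).comp (mk' fun j => G j x)).flip (G j x)) := by
    intro j
    have a1 := hmkc (G2 j) (hG2 j)
    have a2 := hmkc G hGc
    have a3 : Continuous (fun x => P (F x)) := hP1.continuous.comp hFc
    have a4 : Continuous (fun x => H (F x)) := hHc.comp hFc
    refine (a3.clm_comp a1).add ?_
    have a5 := a4.clm_comp a2
    have a6 : Continuous (fun x => ((H (F x)).comp (mk' fun j => G j x)).flip) :=
      (ContinuousLinearMap.flipₗᵢ ℝ V X ℝ).continuous.comp a5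
    exact a6.clm_apply (hGc j)
  have c2 : ∀ j, Continuous (fun x => (θ (F x)).comp (mk' fun l => G2 j l x)
      + ((Θ (F x)).comp (mk' fun j => G j x)).flip (G j x)) := by
    intro j
    have a1 := hmkc (G2 j) (hG2 j)
    have a2 := hmkc G hGc
    have a3 : Continuous (fun x => θ (F x)) := hθ.continuous.comp hFc
    have a4 : Continuous (fun x => Θ (F x)) := hΘc.comp hFc
    refine (a3.clm_comp a1).add ?_
    have a5 := a4.clm_comp a2
    have a6 : Continuous (fun x => ((Θ (F x)).comp (mk' fun j => G j x)).flip) :=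
      (ContinuousLinearMap.flipₗᵢ ℝ V X ℝ).continuous.comp a5
    exact a6.clm_apply (hGc j)
  have key := integral_div_periodic
    (![fun x => P (F x) (G 0 x) + θ (F x) (G 1 x), fun x => P (F x) (G 1 x) - θ (F x) (G 0 x)])
    (![fun x => ((P (F x)).comp (mk' fun l => G2 0 l x)
        + ((H (F x)).comp (mk' fun j => G j x)).flip (G 0 x))
        + ((θ (F x)).comp (mk' fun l => G2 1 l x)
        + ((Θ (F x)).comp (mk' fun j => G j x)).flip (G 1 x)),
      fun x => ((P (F x)).comp (mk' fun l => G2 1 l x)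
        + ((H (F x)).comp (mk' fun j => G j x)).flip (G 1 x))
        - ((θ (F x)).comp (mk' fun l => G2 0 l x)
        + ((Θ (F x)).comp (mk' fun j => G j x)).flip (G 0 x))])
    (by
      intro i x
      fin_cases i
      · exact (d1 0 x).add (d2 1 x)
      · exact (d1 1 x).sub (d2 0 x))
    (by
      intro i
      fin_cases i
      · exact (c1 0).add (c2 1)
      · exact (c1 1).sub (c2 0))
    (by
      intro i x _
      fin_cases i
      · simp [hpF, hpG]
      · simp [hpF, hpG])
  rw [← key]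
  refine integral_congr_ae (Eventually.of_forall fun x => ?_)
  simp only [Fin.sum_univ_two, Matrix.cons_val_zero, Matrix.cons_val_one,
    _root_.add_apply, _root_.sub_apply, ContinuousLinearMap.comp_apply,
    ContinuousLinearMap.flip_apply, mk'_single, hsymm x, map_add]
  ring

end dissipation

theorem tmG_periodic (k : Fin 2 → ℤ) (A B : X) (x : V) (i : Fin 2) :
    tmG k A B (x + Pi.single i 1) = tmG k A B x := by
  unfold tmG
  rw [ph_add_single, Real.cos_add_int_mul_two_pi, Real.sin_add_int_mul_two_pi]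

theorem hasFDerivAt_tmG (k : Fin 2 → ℤ) (A B : X) (x : V) :
    HasFDerivAt (tmG k A B)
      (mk' fun j => tmG k ((2 * Real.pi * k j) • B) (-((2 * Real.pi * k j) • A)) x) x := by
  have h1 := (hasFDerivAt_ph k x).cos.smul_const A
  have h2 := (hasFDerivAt_ph k x).sin.smul_const B
  refine (h1.add h2).congr_fderiv ?_
  ext v
  simp [mk', Fin.sum_univ_two, tmG]
  module

section fam

variable {ι : Type*} [Fintype ι]

theorem FamG_periodic (k : ι → Fin 2 → ℤ) (A B : ι → X) (s : ℝ) (x : V) (j : Fin 2) :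
    FamG k A B s (x + Pi.single j 1) = FamG k A B s x := by
  unfold FamG
  simp only [tmG_periodic]

/-- partial derivative, cosine coefficients -/
noncomputable def dA (k : ι → Fin 2 → ℤ) (B : ι → X) (j : Fin 2) : ι → X :=
  fun i => (2 * Real.pi * k i j) • B i

/-- partial derivative, sine coefficients -/
noncomputable def dB (k : ι → Fin 2 → ℤ) (A : ι → X) (j : Fin 2) : ι → X :=
  fun i => -((2 * Real.pi * k i j) • A i)

theorem hasFDerivAt_FamG (k : ι → Fin 2 → ℤ) (A B : ι → X) (s : ℝ) (x : V) :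
    HasFDerivAt (FamG k A B s) (mk' fun j => FamG k (dA k B j) (dB k A j) s x) x := by
  have h := HasFDerivAt.fun_sum (u := Finset.univ)
    (fun (i : ι) _ => (hasFDerivAt_tmG (k i) (A i) (B i) x).const_smul (s ^ nk (k i)))
  refine h.congr_fderiv ?_
  ext v
  simp only [mk', FamG, dA, dB, Fin.sum_univ_two, _root_.sum_apply,
    FunLike.coe_smul, _root_.add_apply, Pi.smul_apply,
    ContinuousLinearMap.smulRight_apply, ContinuousLinearMap.proj_apply, 
    Finset.smul_sum, ← Finset.sum_add_distrib]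
  refine Finset.sum_congr rfl fun i _ => ?_
  module

theorem continuous_FamG (k : ι → Fin 2 → ℤ) (A B : ι → X) (s : ℝ) : Continuous (FamG k A B s) :=
  continuous_iff_continuousAt.2 fun x => (hasFDerivAt_FamG k A B s x).continuousAt

theorem continuous_tmG (k : Fin 2 → ℤ) (A B : X) : Continuous (tmG k A B) :=
  continuous_iff_continuousAt.2 fun x => (hasFDerivAt_tmG k A B x).continuousAt

theorem continuous_FamG_prod (k : ι → Fin 2 → ℤ) (A B : ι → X) :
    Continuous (fun p : ℝ × V => FamG k A B p.1 p.2) := by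
  unfold FamG
  refine continuous_finsetSum _ fun i _ => ?_
  exact (continuous_fst.pow _).smul ((continuous_tmG _ _ _).comp continuous_snd)

/-- the derivative in the parameter -/
noncomputable def dsFam (k : ι → Fin 2 → ℤ) (A B : ι → X) (s : ℝ) (x : V) : X :=
  ∑ i, ((nk (k i) : ℝ) * s ^ (nk (k i) - 1)) • tmG (k i) (A i) (B i) x

theorem hasDerivAt_FamG (k : ι → Fin 2 → ℤ) (A B : ι → X) (s : ℝ) (x : V) :
    HasDerivAt (fun s => FamG k A B s x) (dsFam k A B s x) s := by
  unfold FamG dsFam
  refine HasDerivAt.fun_sum fun i _ => ?_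
  exact (hasDerivAt_pow _ s).smul_const _

theorem continuous_dsFam_prod (k : ι → Fin 2 → ℤ) (A B : ι → X) :
    Continuous (fun p : ℝ × V => dsFam k A B p.1 p.2) := by
  unfold dsFam
  refine continuous_finsetSum _ fun i _ => ?_
  exact (continuous_const.mul (continuous_fst.pow _)).smul
    ((continuous_tmG _ _ _).comp continuous_snd)

/-- the heat equation -/
theorem heatG (k : ι → Fin 2 → ℤ) (A B : ι → X) (s : ℝ) (x : V) :
    FamG k (dA k (dB k A 0) 0) (dB k (dA k B 0) 0) s x
      + FamG k (dA k (dB k A 1) 1) (dB k (dA k B 1) 1) s x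
      = -(4 * Real.pi ^ 2 * s) • dsFam k A B s x := by
  unfold FamG dsFam
  rw [Finset.smul_sum, ← Finset.sum_add_distrib]
  refine Finset.sum_congr rfl fun i _ => ?_
  have h1 : s * ((nk (k i) : ℝ) * s ^ (nk (k i) - 1)) = (nk (k i) : ℝ) * s ^ (nk (k i)) := by
    rcases Nat.eq_zero_or_pos (nk (k i)) with h | h
    · simp [h]
    · obtain ⟨m, hm⟩ := Nat.exists_eq_succ_of_ne_zero h.ne'
      rw [hm]
      simp only [Nat.succ_eq_add_one, Nat.add_sub_cancel, pow_succ]
      ring
  have h2 : -(4 * Real.pi ^ 2 * s) * ((nk (k i) : ℝ) * s ^ (nk (k i) - 1))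
      = -(4 * Real.pi ^ 2) * ((k i 0 : ℝ) ^ 2 + (k i 1 : ℝ) ^ 2) * s ^ (nk (k i)) := by
    rw [← nk_cast]
    linear_combination -(4 * Real.pi ^ 2) * h1
  rw [smul_smul, h2]
  simp only [tmG, dA, dB]
  module

theorem FamG_zero (k : ι → Fin 2 → ℤ) (A B : ι → X)
    (h : ∀ i, nk (k i) = 0 → A i = 0 ∧ B i = 0) (x : V) : FamG k A B 0 x = 0 := by
  unfold FamG
  refine Finset.sum_eq_zero fun i _ => ?_
  rcases Nat.eq_zero_or_pos (nk (k i)) with h0 | h0
  · rw [(h i h0).1, (h i h0).2]
    simp [tmG]
  · rw [zero_pow h0.ne', zero_smul]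

/-- **Monotonicity along the heat flow**, values in a normed space. -/
theorem flowG {W : X → ℝ} {θ : X → X →L[ℝ] ℝ} {adm : X → X → Prop} (hW : ContDiff ℝ 2 W)
    (hθ : ContDiff ℝ 1 θ)
    (hcert : ∀ F G₀ G₁ : X, adm G₀ G₁ → 0 ≤ hs W F G₀ G₀ + hs W F G₁ G₁ + ed θ F G₀ G₁)
    (k : ι → Fin 2 → ℤ) (A B : ι → X) (F₀ : X) (h0 : ∀ i, nk (k i) = 0 → A i = 0 ∧ B i = 0)
    (hadm : ∀ s x, adm (dFamG k A B 0 s x) (dFamG k A B 1 s x)) :
    W F₀ ≤ ∫ x in Icc (0 : V) 1, W (F₀ + FamG k A B 1 x) := by
  have hP1 : ContDiff ℝ 1 (fderiv ℝ W) := hW.fderiv_right (by norm_num)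
  have hPc : Continuous (fderiv ℝ W) := hP1.continuous
  have hd : ∀ x s, HasDerivAt (fun s => W (F₀ + FamG k A B s x))
      (fderiv ℝ W (F₀ + FamG k A B s x) (dsFam k A B s x)) s := by
    intro x s
    have h1 : HasFDerivAt W (fderiv ℝ W (F₀ + FamG k A B s x)) (F₀ + FamG k A B s x) :=
      (hW.differentiable (by norm_num) _).hasFDerivAt
    exact h1.comp_hasDerivAt s ((hasDerivAt_FamG k A B s x).const_add F₀)
  have hcont : Continuous (fun p : ℝ × V =>
      fderiv ℝ W (F₀ + FamG k A B p.1 p.2) (dsFam k A B p.1 p.2)) :=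
    (hPc.comp (continuous_const.add (continuous_FamG_prod k A B))).clm_apply
      (continuous_dsFam_prod k A B)
  have hftc : ∀ x, ∫ s in (0:ℝ)..1, fderiv ℝ W (F₀ + FamG k A B s x) (dsFam k A B s x)
      = W (F₀ + FamG k A B 1 x) - W F₀ := by
    intro x
    rw [intervalIntegral.integral_eq_sub_of_hasDerivAt (fun s _ => hd x s)]
    · rw [FamG_zero k A B h0, add_zero]
    · refine Continuous.intervalIntegrable ?_ _ _
      exact hcont.comp (continuous_id.prodMk continuous_const)
  have hint : Integrable (Function.uncurry fun (s : ℝ) (x : V) =>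
      fderiv ℝ W (F₀ + FamG k A B s x) (dsFam k A B s x))
      ((volume.restrict (Set.uIoc (0:ℝ) 1)).prod (volume.restrict (Icc (0 : V) 1))) := by
    rw [Measure.prod_restrict]
    have h1 : IntegrableOn (Function.uncurry fun (s : ℝ) (x : V) =>
      fderiv ℝ W (F₀ + FamG k A B s x) (dsFam k A B s x)) (Icc (0:ℝ) 1 ×ˢ Icc (0:V) 1)
      (volume.prod volume) := by
      refine ContinuousOn.integrableOn_compact (isCompact_Icc.prod isCompact_Icc) ?_
      exact hcont.continuousOn
    refine h1.mono_set (Set.prod_mono ?_ le_rfl)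
    rw [uIoc_of_le zero_le_one]
    exact Ioc_subset_Icc_self
  have hswap := intervalIntegral_integral_swap hint
  have hpos : 0 ≤ ∫ s in (0:ℝ)..1, ∫ x in Icc (0:V) 1,
      fderiv ℝ W (F₀ + FamG k A B s x) (dsFam k A B s x) := by
    refine intervalIntegral.integral_nonneg_of_ae_restrict zero_le_one ?_
    rw [EventuallyLE, ae_restrict_iff' measurableSet_Icc]
    filter_upwards [Measure.ae_ne volume (0:ℝ)] with s hs0 hs
    have hs1 : 0 < s := lt_of_le_of_ne hs.1 (Ne.symm hs0)
    have hdis := dissipationG hW hθ (fun x => F₀ + FamG k A B s x)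
      (fun j => FamG k (dA k B j) (dB k A j) s)
      (fun j l => FamG k (dA k (dB k A j) l) (dB k (dA k B j) l) s)
      (fun x => (hasFDerivAt_FamG k A B s x).const_add F₀)
      (fun j x => hasFDerivAt_FamG k _ _ s x)
      (fun j l => continuous_FamG k _ _ s)
      (fun x => by
        have e1 : dA k (dB k A 0) 1 = dA k (dB k A 1) 0 := by
          funext i
          simp only [dA, dB, smul_neg, smul_smul]
          ring_nf
        have e2 : dB k (dA k B 0) 1 = dB k (dA k B 1) 0 := by
          funext i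
          simp only [dA, dB, smul_smul]
          ring_nf
        rw [e1, e2])
      (fun i x => by rw [FamG_periodic])
      (fun j i x => by rw [FamG_periodic])
    have hHc : Continuous (fderiv ℝ (fderiv ℝ W)) := hP1.continuous_fderiv (by norm_num)
    have hΘc : Continuous (fderiv ℝ θ) := hθ.continuous_fderiv (by norm_num)
    have hFc : Continuous (fun x => F₀ + FamG k A B s x) :=
      continuous_const.add (continuous_FamG k A B s)
    have hGc : ∀ j, Continuous (FamG k (dA k B j) (dB k A j) s) := fun j => continuous_FamG k _ _ s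
    have hG2c : ∀ j l, Continuous (FamG k (dA k (dB k A j) l) (dB k (dA k B j) l) s) :=
      fun j l => continuous_FamG k _ _ s
    have hpc : Continuous (fun x => fderiv ℝ W (F₀ + FamG k A B s x) (dsFam k A B s x)) :=
      hcont.comp (continuous_const.prodMk continuous_id)
    have hpos2 : 0 < 4 * Real.pi ^ 2 * s := by positivity
    have hle : ∫ x in Icc (0:V) 1, -(4 * Real.pi ^ 2 * s)
        * fderiv ℝ W (F₀ + FamG k A B s x) (dsFam k A B s x) ≤ 0 := by
      refine (integral_mono ?_ ?_ fun x => ?_).trans hdis.le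
      · exact (continuous_const.mul hpc).integrableOn_Icc
      · refine Continuous.integrableOn_Icc ?_
        refine Continuous.add (Continuous.add (Continuous.add ?_ ?_) (Continuous.sub ?_ ?_)) ?_
        · exact ((hHc.comp hFc).clm_apply (hGc 0)).clm_apply (hGc 0)
        · exact ((hHc.comp hFc).clm_apply (hGc 1)).clm_apply (hGc 1)
        · exact ((hΘc.comp hFc).clm_apply (hGc 0)).clm_apply (hGc 1)
        · exact ((hΘc.comp hFc).clm_apply (hGc 1)).clm_apply (hGc 0)
        · exact (hPc.comp hFc).clm_apply ((hG2c 0 0).add (hG2c 1 1))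
      · have hc := hcert (F₀ + FamG k A B s x) (FamG k (dA k B 0) (dB k A 0) s x)
          (FamG k (dA k B 1) (dB k A 1) s x) (hadm s x)
        unfold Pool.Agent.Q82.MD.hs ed at hc
        have hh := heatG k A B s x
        simp only at hh ⊢
        rw [hh, map_smul, smul_eq_mul]
        linarith
    rw [integral_const_mul] at hle
    simp only [Pi.zero_apply]
    by_contra hneg
    push Not at hneg
    have := mul_pos_of_neg_of_neg (neg_lt_zero.2 hpos2) hneg
    linarith
  have hfin : ∫ x in Icc (0 : V) 1, (W (F₀ + FamG k A B 1 x) - W F₀)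
      = (∫ x in Icc (0 : V) 1, W (F₀ + FamG k A B 1 x)) - W F₀ := by
    rw [integral_sub]
    · simp [Measure.real]
    · exact (hW.continuous.comp (continuous_const.add (continuous_FamG k A B 1))).integrableOn_Icc
    · exact continuous_const.integrableOn_Icc
  have hfin2 : ∫ x in Icc (0 : V) 1, (W (F₀ + FamG k A B 1 x) - W F₀)
      = ∫ s in (0:ℝ)..1, ∫ x in Icc (0:V) 1,
      fderiv ℝ W (F₀ + FamG k A B s x) (dsFam k A B s x) := by
    rw [hswap]
    exact integral_congr_ae (Eventually.of_forall fun x => (hftc x).symm)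
  linarith

end fam

/-- Job MD-1. -/
theorem flowg : S_FLOWG := by
  intro X _ _ W θ adm hW hθ hcert ι _ k A B z₀ h0 hadm
  exact flowG hW hθ hcert k A B z₀ h0 hadm

end Pool.Agent.Q92.MD
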